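import Mathlib

open Finset

namespace Pool.Agent.Results.MP_04e4c2_nt.PrimeFactorBound

/-- The sequence of the problem: `a 0 = 1`, `a 1 = 5`, `a n = (a (n-1) - 1) * a (n-1) ^ 2 + 1` for `n ≥ 2`. -/
def a : ℕ → ℕ
  | 0 => 1
  | 1 => 5
  | (n + 2) => (a (n + 1) - 1) * a (n + 1) ^ 2 + 1

/-- `a (n+1) = 1 + (t n)²`. -/
def t : ℕ → ℕ
  | 0 => 2
  | (n + 1) => t n ^ 3 + t n

theorem a_eq (n : ℕ) : a (n + 1) = 1 + t n ^ 2 := by
  induction n with
  | zero => rfl
  | succ n ih =>
    have h1 : a (n + 1 + 1) = (a (n + 1) - 1) * a (n + 1) ^ 2 + 1 := rfl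
    have h2 : t (n + 1) = t n ^ 3 + t n := rfl
    rw [h1, h2, ih, Nat.add_sub_cancel_left]
    ring

theorem t_pos (n : ℕ) : 0 < t n := by
  induction n with
  | zero => decide
  | succ n ih =>
    have h2 : t (n + 1) = t n ^ 3 + t n := rfl
    rw [h2]
    positivity


theorem card_zero_le {p : ℕ} [Fact p.Prime] (P : Polynomial (ZMod p)) (hP : P ≠ 0) :
    (univ.filter (fun x : ZMod p => P.eval x = 0)).card ≤ P.natDegree := by
  classical
  refine (Finset.card_le_card (t := P.roots.toFinset) (fun x hx => ?_)).trans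
    ((Multiset.toFinset_card_le _).trans (Polynomial.card_roots' P))
  simp only [mem_filter, mem_univ, true_and] at hx
  simp [hP, hx]

theorem three_ne {p : ℕ} [Fact p.Prime] (hp : 3 < p) : (3 : ZMod p) ≠ 0 := by
  intro h
  have h1 : ((3 : ℕ) : ZMod p) = 0 := by exact_mod_cast h
  rw [ZMod.natCast_eq_zero_iff] at h1
  have := Nat.le_of_dvd (by norm_num) h1
  omega

theorem two_ne {p : ℕ} [Fact p.Prime] (hp : 3 < p) : (2 : ZMod p) ≠ 0 := by
  intro h
  have h1 : ((2 : ℕ) : ZMod p) = 0 := by exact_mod_cast h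
  rw [ZMod.natCast_eq_zero_iff] at h1
  have := Nat.le_of_dvd (by norm_num) h1
  omega

/-- Number of pairs with equal value. -/
theorem pairs_card {p : ℕ} [Fact p.Prime] (hp : 3 < p) (i : ZMod p) (hi : i ^ 2 = -1) :
    2 * p ≤ (univ.filter (fun q : ZMod p × ZMod p => q.1 ^ 3 + q.1 = q.2 ^ 3 + q.2)).card + 4 := by
  classical
  have h3 := three_ne hp
  have h2 := two_ne hp
  have hi0 : i ≠ 0 := by
    rintro rfl
    simp at hi
  have h4 : (4 : ZMod p) ≠ 0 := by
    have : (4 : ZMod p) = 2 * 2 := by norm_num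
    rw [this]
    exact mul_ne_zero h2 h2
  set G := univ.filter (fun s : ZMod p => 1 + 3 * s ^ 2 ≠ 0 ∧ 3 * s ^ 2 + 6 * s - 1 ≠ 0) with hG
  set A := univ.filter (fun s : ZMod p => (Polynomial.C 3 * Polynomial.X ^ 2 + Polynomial.C 1 :
    Polynomial (ZMod p)).eval s = 0) with hA
  set B := univ.filter (fun s : ZMod p => (Polynomial.C 3 * Polynomial.X ^ 2 + Polynomial.C 6 * Polynomial.X +
    Polynomial.C (-1) : Polynomial (ZMod p)).eval s = 0) with hB
  have hdA : (Polynomial.C 3 * Polynomial.X ^ 2 + Polynomial.C 1 : Polynomial (ZMod p)).natDegree = 2 := by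
    compute_degree!
  have hdB : (Polynomial.C 3 * Polynomial.X ^ 2 + Polynomial.C 6 * Polynomial.X +
      Polynomial.C (-1) : Polynomial (ZMod p)).natDegree = 2 := by
    compute_degree!
  have hcA : A.card ≤ 2 := by
    rw [← hdA]
    apply card_zero_le
    intro h
    rw [h] at hdA
    simp at hdA
  have hcB : B.card ≤ 2 := by
    rw [← hdB]
    apply card_zero_le
    intro h
    rw [h] at hdB
    simp at hdB
  have hcG : p ≤ G.card + 4 := by
    have h5 : (univ : Finset (ZMod p)) ⊆ G ∪ (A ∪ B) := by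
      intro s _
      simp only [hG, hA, hB, mem_union, mem_filter, mem_univ, true_and, Polynomial.eval_add, Polynomial.eval_mul,
        Polynomial.eval_C, Polynomial.eval_pow, Polynomial.eval_X]
      by_cases hs : 1 + 3 * s ^ 2 = 0
      · right; left
        rw [add_comm]; exact hs
      · by_cases hs' : 3 * s ^ 2 + 6 * s - 1 = 0
        · right; right
          rw [← hs']; ring
        · left; exact ⟨hs, hs'⟩
    have h6 := Finset.card_le_card h5
    rw [Finset.card_univ, ZMod.card] at h6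
    have h7 := Finset.card_union_le G (A ∪ B)
    have h8 := Finset.card_union_le A B
    omega
  let f : ZMod p → ZMod p × ZMod p := fun s =>
    (i * (3 * s ^ 2 + 2 * s - 1) / (1 + 3 * s ^ 2), -4 * i * s / (1 + 3 * s ^ 2))
  have hf_inj : Set.InjOn f (G : Set (ZMod p)) := by
    intro s hs s' hs' h
    simp only [hG, mem_coe, mem_filter, mem_univ, true_and] at hs hs'
    simp only [f, Prod.mk.injEq] at h
    obtain ⟨h5, h6⟩ := h
    have hD := hs.1
    have hD' := hs'.1
    have e1 : i * (3 * s ^ 2 + 2 * s - 1) * (1 + 3 * s' ^ 2) = i * (3 * s' ^ 2 + 2 * s' - 1) * (1 + 3 * s ^ 2) :=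
      (div_eq_div_iff hD hD').mp h5
    have e2 : -4 * i * s * (1 + 3 * s' ^ 2) = -4 * i * s' * (1 + 3 * s ^ 2) := (div_eq_div_iff hD hD').mp h6
    have e3 : (3 * 4 * i) * (s ^ 2 - s' ^ 2) = 0 := by
      linear_combination 2 * e1 + e2
    have e4 : s ^ 2 = s' ^ 2 := by
      have : (3 * 4 * i) ≠ 0 := mul_ne_zero (mul_ne_zero h3 h4) hi0
      have := (mul_eq_zero.mp e3).resolve_left this
      linear_combination this
    have e5 : (4 * i * (1 + 3 * s ^ 2)) * (s - s') = 0 := by
      rw [← e4] at e2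
      linear_combination -e2
    have e6 := (mul_eq_zero.mp e5).resolve_left (mul_ne_zero (mul_ne_zero h4 hi0) hD)
    linear_combination e6
  set Dg := (univ : Finset (ZMod p)).image (fun x => (x, x)) with hDg
  have hcD : Dg.card = p := by
    rw [hDg, Finset.card_image_of_injective _ (fun x y h => (Prod.mk.inj h).1), Finset.card_univ, ZMod.card]
  have hcI : (G.image f).card = G.card := Finset.card_image_of_injOn hf_inj
  have hdisj : Disjoint Dg (G.image f) := by
    rw [Finset.disjoint_left]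
    intro q hq hq'
    simp only [hDg, mem_image, mem_univ, true_and] at hq hq'
    obtain ⟨x, rfl⟩ := hq
    obtain ⟨s, hs, hsx⟩ := hq'
    simp only [hG, mem_filter, mem_univ, true_and] at hs
    simp only [f, Prod.mk.injEq] at hsx
    obtain ⟨h5, h6⟩ := hsx
    rw [div_eq_iff hs.1] at h5 h6
    have e1 : i * (3 * s ^ 2 + 6 * s - 1) = 0 := by linear_combination h5 - h6
    exact hs.2 ((mul_eq_zero.mp e1).resolve_left hi0)
  have hsub : Dg ∪ G.image f ⊆ univ.filter (fun q : ZMod p × ZMod p => q.1 ^ 3 + q.1 = q.2 ^ 3 + q.2) := by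
    intro q hq
    rw [mem_union] at hq
    simp only [mem_filter, mem_univ, true_and]
    rcases hq with hq | hq
    · simp only [hDg, mem_image, mem_univ, true_and] at hq
      obtain ⟨x, rfl⟩ := hq
      rfl
    · simp only [mem_image] at hq
      obtain ⟨s, hs, rfl⟩ := hq
      simp only [hG, mem_filter, mem_univ, true_and] at hs
      have hD := hs.1
      simp only [f]
      have key : (i * (3 * s ^ 2 + 2 * s - 1) / (1 + 3 * s ^ 2)) ^ 2 +
          (i * (3 * s ^ 2 + 2 * s - 1) / (1 + 3 * s ^ 2)) * (-4 * i * s / (1 + 3 * s ^ 2)) +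
          (-4 * i * s / (1 + 3 * s ^ 2)) ^ 2 + 1 = 0 := by
        field_simp
        linear_combination (1 + 3 * s ^ 2) ^ 2 * hi
      linear_combination (i * (3 * s ^ 2 + 2 * s - 1) / (1 + 3 * s ^ 2) - (-4 * i * s / (1 + 3 * s ^ 2))) * key
  have h9 := Finset.card_le_card hsub
  rw [Finset.card_union_of_disjoint hdisj, hcD, hcI] at h9
  omega

/-- If `-1` is a square mod `p`, the map `x ↦ x³ + x` has at most `(2p + 4)/3` values mod `p`. -/
theorem card_image_le {p : ℕ} [Fact p.Prime] (hp : 3 < p) (i : ZMod p) (hi : i ^ 2 = -1) :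
    3 * ((univ : Finset (ZMod p)).image (fun x => x ^ 3 + x)).card ≤ 2 * p + 4 := by
  classical
  set g : ZMod p → ZMod p := fun x => x ^ 3 + x with hg
  set S := (univ : Finset (ZMod p)).image g with hS
  let r : ZMod p → ℕ := fun v => (univ.filter (fun x : ZMod p => g x = v)).card
  have hr3 : ∀ v, r v ≤ 3 := by
    intro v
    have hd : (Polynomial.X ^ 3 + Polynomial.X + Polynomial.C (-v) : Polynomial (ZMod p)).natDegree = 3 := by
      compute_degree!
    have h0 := card_zero_le (Polynomial.X ^ 3 + Polynomial.X + Polynomial.C (-v) : Polynomial (ZMod p))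
      (by intro h; rw [h] at hd; simp at hd)
    rw [hd] at h0
    refine le_trans (le_of_eq ?_) h0
    change (univ.filter (fun x : ZMod p => g x = v)).card = _
    congr 1
    ext x
    simp only [mem_filter, mem_univ, true_and, Polynomial.eval_add, Polynomial.eval_pow, Polynomial.eval_X,
      Polynomial.eval_C, hg]
    constructor
    · intro h; rw [h]; ring
    · intro h; linear_combination h
  have hr1 : ∀ v ∈ S, 1 ≤ r v := by
    intro v hv
    rw [hS, mem_image] at hv
    obtain ⟨x, _, hx⟩ := hv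
    exact Finset.card_pos.mpr ⟨x, by simp [hx]⟩
  have hsum1 : ∑ v ∈ S, r v = p := by
    have h := Finset.card_eq_sum_card_fiberwise (s := (univ : Finset (ZMod p))) (t := S) (f := g)
      (fun x _ => by rw [hS]; exact_mod_cast mem_image_of_mem g (mem_univ x))
    rw [Finset.card_univ, ZMod.card] at h
    exact h.symm
  have hsum2 : (univ.filter (fun q : ZMod p × ZMod p => q.1 ^ 3 + q.1 = q.2 ^ 3 + q.2)).card = ∑ v ∈ S, r v ^ 2 := by
    rw [Finset.card_eq_sum_card_fiberwise (t := S) (f := fun q : ZMod p × ZMod p => g q.1)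
      (fun x _ => by rw [hS]; exact_mod_cast mem_image_of_mem g (mem_univ _))]
    apply Finset.sum_congr rfl
    intro v _
    rw [sq, ← Finset.card_product]
    apply congrArg
    ext ⟨x, y⟩
    simp only [mem_filter, mem_univ, true_and, mem_product]
    constructor
    · rintro ⟨h1, h2⟩
      exact ⟨h2, by rw [← h2]; exact h1.symm⟩
    · rintro ⟨h1, h2⟩
      exact ⟨by change g x = g y; rw [h1, h2], h1⟩
  have hN := pairs_card hp i hi
  rw [hsum2] at hN
  have h3 : ∀ v ∈ S, 3 + r v ^ 2 ≤ 4 * r v := by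
    intro v hv
    have h1 := hr1 v hv
    have h2 := hr3 v
    interval_cases r v <;> norm_num
  have h4 := Finset.sum_le_sum h3
  rw [Finset.sum_add_distrib, ← Finset.mul_sum, hsum1, Finset.sum_const, smul_eq_mul] at h4
  omega


section orbit
variable {p : ℕ} [Fact p.Prime]

/-- The residues of `t`. -/
theorem x_succ (j : ℕ) : ((t (j + 1) : ℕ) : ZMod p) = (t j : ZMod p) ^ 3 + (t j : ZMod p) := by
  have h2 : t (j + 1) = t j ^ 3 + t j := rfl
  rw [h2]
  push_cast
  rfl

theorem x_zero_of_zero (j k : ℕ) (h : (t j : ZMod p) = 0) : ((t (j + k) : ℕ) : ZMod p) = 0 := by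
  induction k with
  | zero => simpa using h
  | succ k ih =>
    rw [← add_assoc, x_succ, ih]
    ring

theorem x_sq_add (i j k : ℕ) (h : (t i : ZMod p) ^ 2 = (t j : ZMod p) ^ 2) :
    ((t (i + k) : ℕ) : ZMod p) ^ 2 = ((t (j + k) : ℕ) : ZMod p) ^ 2 := by
  induction k with
  | zero => simpa using h
  | succ k ih =>
    rw [← add_assoc, ← add_assoc, x_succ, x_succ]
    have h1 : ∀ z : ZMod p, (z ^ 3 + z) ^ 2 = z ^ 2 * (z ^ 2 + 1) ^ 2 := by
      intro z; ring
    rw [h1, h1, ih]

theorem x_ne_zero {N : ℕ} (hN : (t N : ZMod p) ^ 2 = -1) {j : ℕ} (hj : j ≤ N) : (t j : ZMod p) ≠ 0 := by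
  intro h
  have h1 := x_zero_of_zero j (N - j) h
  rw [Nat.add_sub_cancel' hj] at h1
  rw [h1] at hN
  have : (1 : ZMod p) = 0 := by linear_combination hN
  exact one_ne_zero this

theorem x_sq_inj {N : ℕ} (hN : (t N : ZMod p) ^ 2 = -1) {i j : ℕ} (hij : i < j) (hj : j ≤ N) :
    (t i : ZMod p) ^ 2 ≠ (t j : ZMod p) ^ 2 := by
  intro h
  have h1 := x_sq_add i j (N - j) h
  rw [Nat.add_sub_cancel' hj, hN] at h1
  have h2 : ((t (i + (N - j) + 1) : ℕ) : ZMod p) = 0 := by
    rw [x_succ]
    linear_combination ((t (i + (N - j)) : ℕ) : ZMod p) * h1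
  exact x_ne_zero hN (show i + (N - j) + 1 ≤ N by omega) h2

end orbit

theorem sq_three : ∀ z : ZMod 3, z ^ 2 ≠ -1 := by decide

/-- The bound for prime factors. -/
theorem prime_bound {n p : ℕ} (hn : 1 ≤ n) (hp : p.Prime) (hd : p ∣ a n) : 3 * n ≤ p + 2 := by
  classical
  have : Fact p.Prime := ⟨hp⟩
  obtain ⟨N, rfl⟩ : ∃ N, n = N + 1 := ⟨n - 1, by omega⟩
  rw [a_eq] at hd
  have hN : (t N : ZMod p) ^ 2 = -1 := by
    have h1 : ((1 + t N ^ 2 : ℕ) : ZMod p) = 0 := (ZMod.natCast_eq_zero_iff _ _).mpr hd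
    push_cast at h1
    linear_combination h1
  -- `t N` is even, so `p ≠ 2`
  have heven : ∀ j, 2 ∣ t j := by
    intro j
    induction j with
    | zero => exact ⟨1, rfl⟩
    | succ j ih =>
      have h2 : t (j + 1) = t j ^ 3 + t j := rfl
      rw [h2]
      exact dvd_add (dvd_pow ih (by norm_num)) ih
  have hp2 : p ≠ 2 := by
    rintro rfl
    have h1 : 2 ∣ t N ^ 2 := dvd_pow (heven N) (by norm_num)
    have h2 := (Nat.dvd_add_left h1).mp hd
    omega
  have hp3 : p ≠ 3 := by
    rintro rfl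
    exact sq_three _ hN
  have hp' : 3 < p := by
    have := hp.two_le
    omega
  have himg := card_image_le hp' (t N : ZMod p) hN
  set S := (univ : Finset (ZMod p)).image (fun x => x ^ 3 + x) with hS
  have h2 := two_ne hp'
  -- the elements `t 1, …, t N`
  let P := (Finset.range N).image (fun j => ((t (j + 1) : ℕ) : ZMod p))
  let Q := (Finset.range N).image (fun j => -((t (j + 1) : ℕ) : ZMod p))
  have hinj : Set.InjOn (fun j => ((t (j + 1) : ℕ) : ZMod p)) (Finset.range N : Set ℕ) := by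
    intro i hi j hj h
    simp only [mem_coe, mem_range] at hi hj
    by_contra hne
    rcases lt_or_gt_of_ne hne with hlt | hlt
    · exact x_sq_inj hN (show i + 1 < j + 1 by omega) (by omega) (congrArg (fun z => z ^ 2) h)
    · exact x_sq_inj hN (show j + 1 < i + 1 by omega) (by omega) (congrArg (fun z => z ^ 2) h.symm)
  have hP : P.card = N := by
    rw [Finset.card_image_of_injOn hinj, Finset.card_range]
  have hQ : Q.card = N := by
    rw [Finset.card_image_of_injOn (fun i hi j hj h => hinj hi hj (neg_injective h)), Finset.card_range]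
  have hPQ : Disjoint P Q := by
    rw [Finset.disjoint_left]
    intro z hz hz'
    simp only [P, Q, mem_image, mem_range] at hz hz'
    obtain ⟨i, hi, rfl⟩ := hz
    obtain ⟨j, hj, hij⟩ := hz'
    rcases lt_trichotomy i j with hlt | heq | hlt
    · refine x_sq_inj hN (show i + 1 < j + 1 by omega) (by omega) ?_
      rw [← hij]; ring
    · subst heq
      have h3 : (2 : ZMod p) * ((t (i + 1) : ℕ) : ZMod p) = 0 := by linear_combination -hij
      exact x_ne_zero hN (show i + 1 ≤ N by omega) ((mul_eq_zero.mp h3).resolve_left h2)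
    · refine x_sq_inj hN (show j + 1 < i + 1 by omega) (by omega) ?_
      rw [← hij]; ring
  have h0 : (0 : ZMod p) ∉ P ∪ Q := by
    intro h
    simp only [P, Q, mem_union, mem_image, mem_range] at h
    rcases h with ⟨i, hi, h⟩ | ⟨i, hi, h⟩
    · exact x_ne_zero hN (show i + 1 ≤ N by omega) h
    · exact x_ne_zero hN (show i + 1 ≤ N by omega) (neg_eq_zero.mp h)
  have hsub : insert 0 (P ∪ Q) ⊆ S := by
    intro z hz
    rw [hS, mem_image]
    simp only [P, Q, mem_insert, mem_union, mem_image, mem_range] at hz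
    rcases hz with rfl | ⟨i, hi, rfl⟩ | ⟨i, hi, rfl⟩
    · exact ⟨0, mem_univ _, by ring⟩
    · exact ⟨(t i : ZMod p), mem_univ _, (x_succ i).symm⟩
    · exact ⟨-(t i : ZMod p), mem_univ _, by rw [x_succ]; ring⟩
  have h4 := Finset.card_le_card hsub
  rw [Finset.card_insert_of_notMem h0, Finset.card_union_of_disjoint hPQ, hP, hQ] at h4
  have h5 : 3 * N ≤ p := by omega
  have h6 : 3 * N ≠ p := by
    intro h
    have h7 : 3 ∣ p := ⟨N, h.symm⟩
    rcases (Nat.dvd_prime hp).mp h7 with h8 | h8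
    · omega
    · exact hp3 h8.symm
  omega

/-- **Main theorem.**  For `n ≥ 1`: every divisor `d > 1` of `a n` satisfies `d ≥ 3n - 2`; in particular a prime whose
square divides `a n` is at least `3n - 2`; and if `a n = d * y²` then `d ≥ 3n - 2`. -/
theorem result (n : ℕ) (hn : 1 ≤ n) :
    (∀ d : ℕ, 1 < d → d ∣ a n → 3 * n ≤ d + 2) ∧
    (∀ p : ℕ, p.Prime → p ^ 2 ∣ a n → 3 * n ≤ p + 2) ∧
    (∀ d y : ℕ, a n = d * y ^ 2 → 3 * n ≤ d + 2) := by
  have h1 : ∀ d : ℕ, 1 < d → d ∣ a n → 3 * n ≤ d + 2 := by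
    intro d hd hda
    obtain ⟨p, hp, hpd⟩ := Nat.exists_prime_and_dvd (show d ≠ 1 by omega)
    have h2 := prime_bound hn hp (hpd.trans hda)
    have h3 := Nat.le_of_dvd (by omega) hpd
    omega
  refine ⟨h1, fun p hp hpa => prime_bound hn hp ((dvd_pow_self p (by norm_num)).trans hpa), fun d y h => ?_⟩
  obtain ⟨N, rfl⟩ : ∃ N, n = N + 1 := ⟨n - 1, by omega⟩
  have ht := t_pos N
  have ha := a_eq N
  rcases Nat.lt_or_ge 1 d with hd | hd
  · exact h1 d hd ⟨y ^ 2, h⟩
  · exfalso
    interval_cases d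
    · rw [ha] at h; omega
    · rw [ha, one_mul] at h
      have h5 : t N < y := by
        by_contra hlt
        have := Nat.pow_le_pow_left (not_lt.mp hlt) 2
        omega
      nlinarith

end Pool.Agent.Results.MP_04e4c2_nt.PrimeFactorBound
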