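import Mathlib

/-!
# MP_04e4c2_nt: the squarefree part of the terms of the sequence

If `a(n) = s t^2` with `n ≥ 3`, then `s ≥ a(3) = 1020101`. Modulo suitable primes `q` all terms with index of a given parity
have the same quadratic character, which is then the character of `s`, and a sieve excludes all `s < 1020101`.
-/

set_option autoImplicit false

namespace Pool.Agent.Results.MP_04e4c2_nt.SquarefreePart

/-- The sequence `a(0) = 1`, `a(1) = 5`, `a(n) = (a(n-1) - 1) a(n-1)^2 + 1`. -/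
def a : ℕ → ℕ
  | 0 => 1
  | 1 => 5
  | n + 2 => (a (n + 1) - 1) * a (n + 1) ^ 2 + 1

theorem a_pos : ∀ n, 1 ≤ a n
  | 0 => le_rfl
  | 1 => by decide
  | n + 2 => by rw [a]; omega

/-- One step modulo `q`. -/
def step (q x : ℕ) : ℕ := ((x + (q - 1)) * x ^ 2 + 1) % q

theorem a_step {q n : ℕ} (hq : 0 < q) (hn : 1 ≤ n) : a (n + 1) % q = step q (a n % q) := by
  obtain ⟨m, rfl⟩ := Nat.exists_eq_add_of_le' hn
  rw [show m + 1 + 1 = m + 2 from rfl, a, step]
  have hx := a_pos (m + 1)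
  generalize a (m + 1) = x at hx ⊢
  have h1 : x % q + (q - 1) ≡ x - 1 [MOD q] := by
    have h : x + (q - 1) = (x - 1) + q := by omega
    have h2 : x % q + (q - 1) ≡ x + (q - 1) [MOD q] := (Nat.mod_modEq x q).add_right _
    rw [h] at h2
    exact h2.trans (by simp [Nat.ModEq])
  have h2 : (x % q) ^ 2 ≡ x ^ 2 [MOD q] := (Nat.mod_modEq x q).pow 2
  exact ((h1.mul h2).add_right 1).symm

/-- The lists `V0`, `V1` contain the residues modulo `q` of the terms with even, odd index, from `a(3)` on. -/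
def ok (q : ℕ) (V0 V1 : List ℕ) : Bool :=
  V1.contains (1020101 % q) && V1.all (fun x => V0.contains (step q x)) && V0.all (fun x => V1.contains (step q x))

theorem a_three : a 3 = 1020101 := by norm_num [a]

theorem orbit {q : ℕ} {V0 V1 : List ℕ} (hq : 0 < q) (h : ok q V0 V1 = true) (j : ℕ) :
    a (2 * j + 3) % q ∈ V1 ∧ a (2 * j + 4) % q ∈ V0 := by
  simp only [ok, Bool.and_eq_true, List.all_eq_true, List.contains_iff_mem] at h
  obtain ⟨⟨h1, h2⟩, h3⟩ := h
  have key : ∀ j, a (2 * j + 3) % q ∈ V1 → a (2 * j + 4) % q ∈ V0 := by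
    intro j hj
    rw [show 2 * j + 4 = (2 * j + 3) + 1 from rfl, a_step hq (by omega)]
    exact h2 _ hj
  have main : a (2 * j + 3) % q ∈ V1 := by
    induction j with
    | zero =>
      rw [show 2 * 0 + 3 = 3 from rfl, a_three]
      exact h1
    | succ j ih =>
      rw [show 2 * (j + 1) + 3 = (2 * j + 4) + 1 from rfl, a_step hq (by omega)]
      exact h3 _ (key j ih)
  exact ⟨main, key j main⟩

/-- Euler's criterion: the power `s ^ ((q - 1) / 2)` modulo `q`. -/
def pw (q s : ℕ) : ℕ := (s % q) ^ ((q - 1) / 2) % q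

theorem pw_eq {q s t v : ℕ} (hq : q.Prime) (hq2 : q ≠ 2) (h : (s * t ^ 2) % q = v % q) (hv : v % q ≠ 0) :
    pw q s = pw q v := by
  have := Fact.mk hq
  have h1 : ((s * t ^ 2 : ℕ) : ZMod q) = (v : ZMod q) := (ZMod.natCast_eq_natCast_iff' _ _ _).2 h
  have hv0 : (v : ZMod q) ≠ 0 := by
    intro h0
    rw [ZMod.natCast_eq_zero_iff] at h0
    exact hv (Nat.mod_eq_zero_of_dvd h0)
  push_cast at h1
  have ht : (t : ZMod q) ≠ 0 := by
    intro h0
    rw [h0] at h1
    exact hv0 (by rw [← h1]; ring)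
  have he : 2 * ((q - 1) / 2) = q - 1 := by
    have := hq.eq_two_or_odd
    omega
  have h2 : (s : ZMod q) ^ ((q - 1) / 2) = (v : ZMod q) ^ ((q - 1) / 2) := by
    rw [← h1, mul_pow, ← pow_mul, he, ZMod.pow_card_sub_one_eq_one ht, mul_one]
  have h3 : ((s ^ ((q - 1) / 2) : ℕ) : ZMod q) = ((v ^ ((q - 1) / 2) : ℕ) : ZMod q) := by
    push_cast
    exact h2
  have h4 := (ZMod.natCast_eq_natCast_iff' _ _ _).1 h3
  rw [pw, pw, ← Nat.pow_mod, ← Nat.pow_mod]
  exact h4

/-- For each prime `q`: the character value on the terms with even index from `a(4)` on, and the residues. -/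
def rowsE : List (ℕ × ℕ × List ℕ × List ℕ) :=
  [(5, 1, [1], [1]),
    (7, 6, [3], [5]),
    (11, 10, [2], [5]),
    (13, 1, [10], [4]),
    (17, 1, [16], [16]),
    (19, 18, [8], [10, 12]),
    (23, 1, [9], [5]),
    (37, 1, [27], [11]),
    (43, 42, [37], [7, 12]),
    (73, 1, [72], [72]),
    (101, 1, [1], [1]),
    (127, 1, [9], [14, 37]),
    (137, 1, [136], [136]),
    (229, 1, [95], [135]),
    (2447, 1, [2, 101], [5, 2149]),
    (3673, 1, [3672], [2680, 3672])]

/-- The same for the terms with odd index from `a(3)` on. -/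
def rowsO: List (ℕ × ℕ × List ℕ × List ℕ) :=
  [(5, 1, [1], [1]),
    (7, 6, [3], [5]),
    (11, 1, [2], [5]),
    (13, 1, [10], [4]),
    (17, 1, [16], [16]),
    (19, 18, [8], [10, 12]),
    (23, 22, [9], [5]),
    (31, 30, [20, 26], [6, 15]),
    (37, 1, [27], [11]),
    (43, 42, [37], [7, 12]),
    (53, 1, [0, 1], [1, 10]),
    (73, 1, [72], [72]),
    (101, 1, [1], [1]),
    (181, 1, [21, 49], [133, 166]),
    (1613, 1, [0, 1], [1, 685])]

theorem primesE : ∀ r ∈ rowsE, r.1.Prime ∧ r.1 ≠ 2 := by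
  intro r hr
  simp only [rowsE, List.mem_cons, List.not_mem_nil, or_false] at hr
  rcases hr with rfl | rfl | rfl | rfl | rfl | rfl | rfl | rfl | rfl | rfl | rfl | rfl | rfl | rfl | rfl | rfl <;>
    norm_num

theorem primesO : ∀ r ∈ rowsO, r.1.Prime ∧ r.1 ≠ 2 := by
  intro r hr
  simp only [rowsO, List.mem_cons, List.not_mem_nil, or_false] at hr
  rcases hr with rfl | rfl | rfl | rfl | rfl | rfl | rfl | rfl | rfl | rfl | rfl | rfl | rfl | rfl | rfl <;>
    norm_num

theorem rowsE_ok : ∀ r ∈ rowsE, ok r.1 r.2.2.1 r.2.2.2 = true ∧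
    ∀ v ∈ r.2.2.1, v % r.1 ≠ 0 ∧ v < r.1 ∧ pw r.1 v = r.2.1 := by decide +kernel

theorem rowsO_ok : ∀ r ∈ rowsO, ok r.1 r.2.2.1 r.2.2.2 = true ∧
    ∀ v ∈ r.2.2.2, v % r.1 ≠ 0 ∧ v < r.1 ∧ pw r.1 v = r.2.1 := by decide +kernel

/-- Some prime of the list excludes `s`. -/
def bad (L : List (ℕ × ℕ × List ℕ × List ℕ)) (s : ℕ) : Bool := L.any fun r => !(pw r.1 s == r.2.1)

/-- All `24 j + 5` with `lo ≤ j < lo + 2 ^ d`, `j < 42504`, are excluded. -/
def chk (L : List (ℕ × ℕ × List ℕ × List ℕ)) : ℕ → ℕ → Bool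
  | 0, lo => Nat.ble 42504 lo || bad L (24 * lo + 5)
  | d + 1, lo => Nat.ble 42504 lo || (chk L d lo && chk L d (lo + 2 ^ d))

theorem chk_spec {L : List (ℕ × ℕ × List ℕ × List ℕ)} : ∀ (d lo : ℕ), chk L d lo = true →
    ∀ j, lo ≤ j → j < lo + 2 ^ d → j < 42504 → bad L (24 * j + 5) = true
  | 0, lo, h, j, h1, h2, h3 => by
    have hj : j = lo := by
      rw [pow_zero] at h2
      omega
    subst hj
    rw [chk, Bool.or_eq_true] at h
    rcases h with h | h
    · have := Nat.le_of_ble_eq_true h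
      omega
    · exact h
  | d + 1, lo, h, j, h1, h2, h3 => by
    rw [chk, Bool.or_eq_true, Bool.and_eq_true] at h
    rcases h with h | h
    · have := Nat.le_of_ble_eq_true h
      omega
    · rw [pow_succ] at h2
      rcases Nat.lt_or_ge j (lo + 2 ^ d) with h4 | h4
      · exact chk_spec d lo h.1 j h1 h4 h3
      · exact chk_spec d (lo + 2 ^ d) h.2 j h4 (by omega) h3

theorem chkE : chk rowsE 16 0 = true := by decide +kernel

theorem chkO : chk rowsO 16 0 = true := by decide +kernel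

theorem mod24 : ∀ x < 24, ∀ y < 24, (x * y ^ 2) % 24 = 5 → x = 5 := by decide

/-- The lower bound for the squarefree part, from the third term on. -/
theorem large {n s t : ℕ} (hn : 3 ≤ n) (h : a n = s * t ^ 2) : 1020101 ≤ s := by
  by_contra hlt
  push Not at hlt
  have h24 : a n % 24 = 5 := by
    have h1 := orbit (q := 24) (V0 := [5]) (V1 := [5]) (by norm_num) (by decide)
    rcases Nat.even_or_odd' n with ⟨m, rfl | rfl⟩
    · have h2 := (h1 (m - 2)).2
      rw [show 2 * (m - 2) + 4 = 2 * m by omega] at h2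
      simpa using h2
    · have h2 := (h1 (m - 1)).1
      rw [show 2 * (m - 1) + 3 = 2 * m + 1 by omega] at h2
      simpa using h2
  have hs5 : s % 24 = 5 := by
    refine mod24 (s % 24) (Nat.mod_lt _ (by norm_num)) (t % 24) (Nat.mod_lt _ (by norm_num)) ?_
    rw [← h24, h]
    simp [Nat.mul_mod, Nat.pow_mod]
  obtain ⟨j, hj⟩ : ∃ j, s = 24 * j + 5 := ⟨s / 24, by omega⟩
  have hj2 : j < 42504 := by omega
  rcases Nat.even_or_odd' n with ⟨m, hm | hm⟩
  · have hb := chk_spec 16 0 chkE j (Nat.zero_le _) (by norm_num; omega) hj2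
    rw [bad, List.any_eq_true] at hb
    obtain ⟨r, hr, hr2⟩ := hb
    obtain ⟨hp, hp2⟩ := primesE r hr
    obtain ⟨ho, hv⟩ := rowsE_ok r hr
    have h1 := (orbit hp.pos ho (m - 2)).2
    rw [show 2 * (m - 2) + 4 = n by omega] at h1
    obtain ⟨h2, h3, h4⟩ := hv _ h1
    have h5 := pw_eq hp hp2 (s := s) (t := t) (v := a n % r.1) (by rw [← h, Nat.mod_mod]) h2
    rw [h4, hj] at h5
    simp [h5] at hr2
  · have hb := chk_spec 16 0 chkO j (Nat.zero_le _) (by norm_num; omega) hj2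
    rw [bad, List.any_eq_true] at hb
    obtain ⟨r, hr, hr2⟩ := hb
    obtain ⟨hp, hp2⟩ := primesO r hr
    obtain ⟨ho, hv⟩ := rowsO_ok r hr
    have h1 := (orbit hp.pos ho (m - 1)).1
    rw [show 2 * (m - 1) + 3 = n by omega] at h1
    obtain ⟨h2, h3, h4⟩ := hv _ h1
    have h5 := pw_eq hp hp2 (s := s) (t := t) (v := a n % r.1) (by rw [← h, Nat.mod_mod]) h2
    rw [h4, hj] at h5
    simp [h5] at hr2

/-- If `a(n) = s t^2` with `n ≥ 3`, then `s ≥ a(3) = 1020101`. -/
theorem result {n s t : ℕ} (hn : 3 ≤ n) (h : a n = s * t ^ 2) : 1020101 ≤ s := large hn h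

end Pool.Agent.Results.MP_04e4c2_nt.SquarefreePart
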